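import Pool.Agent.Work.MP_f9d495_an.Main2

/-!
# MP_f9d495_an, Q1: negative answer on the flat torus, for every `r ≥ 2`
-/

namespace Pool.Agent.Results.MP_f9d495_an.NewhouseTorus

open Pool.Agent.Work.MP_f9d495_an

/-- There is a Newhouse domain `N` in `Diff^r` of the torus such that every `f ∈ N` has a transitive
hyperbolic set with a homoclinic tangency, but no `f ∈ N` is strongly pluripotent, or even
pluripotent, for any hyperbolic set having a homoclinic tangency. -/
theorem result (r : ℕ) (hr : 2 ≤ r) : ∃ N : Set (TorusDiffeo r), IsNewhouseDomain r N ∧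
    ∀ f ∈ N, (∃ L, IsHyperbolicSet f.perm L ∧ IsTransitiveSet f.perm L ∧
      HasHomoclinicTangency f.perm L) ∧
    ∀ L, IsHyperbolicSet f.perm L → HasHomoclinicTangency f.perm L →
      ¬ StronglyPluripotent r f L ∧ ¬ Pluripotent r f L :=
  main_strong r hr

end Pool.Agent.Results.MP_f9d495_an.NewhouseTorus
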